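import Pool.Agent.Lib.MP_dda4e9_nt.LbM

set_option autoImplicit false

namespace Pool.Agent.Results.MP_dda4e9_nt.DimLower

open Pool.Agent.Lib.MP_dda4e9_nt Filter Topology

/-- The rational span of the multiple Glaisher values at `π / 3` of weight `w` has dimension at
least `2 ^ ⌊w / 4⌋ / (2000 w ^ 2)`. -/
theorem result : ∃ L : List ℕ → ℂ,
    (∀ k : List ℕ, (∀ a ∈ k, 1 ≤ a) → Tendsto (Li k)
      (𝓝[Metric.ball (0 : ℂ) 1] (Complex.exp (Real.pi / 3 * Complex.I))) (𝓝 (L k))) ∧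
    ∀ w : ℕ, 2 ≤ w → 2 ^ (w / 4) ≤ 2000 * w ^ 2 * Module.finrank ℚ (Submodule.span ℚ
      {x : ℝ | ∃ k : List ℕ, (∀ a ∈ k, 1 ≤ a) ∧ k.sum = w ∧
        x = if Even w then (L k).re else (L k).im}) := by
  have h : ∀ k : List ℕ, (∀ a ∈ k, 1 ≤ a) → Tendsto (Li k) (𝓝[Metric.ball 0 1] LB.zt)
      (𝓝 (limUnder (𝓝[Metric.ball 0 1] LB.zt) (Li k))) := fun k hk =>
    tendsto_nhds_limUnder (good_Li LB.zt_norm
      (by rw [← LB.zt_conj, Complex.norm_conj, LB.zt_norm]) k hk).2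
  have : (𝓝[Metric.ball (0 : ℂ) 1] LB.zt).NeBot := mem_closure_iff_nhdsWithin_neBot.1 (by
    rw [closure_ball _ one_ne_zero, mem_closedBall_zero_iff, LB.zt_norm])
  refine ⟨_, h, fun w hw => @LB.dim_lower w hw _ (FiniteDimensional.span_of_finite ℚ
    ((Set.finite_range fun c : Composition w => LB.gl w
      (limUnder (𝓝[Metric.ball 0 1] LB.zt) (Li c.blocks))).subset ?_)) fun u hu => ?_⟩
  · rintro x ⟨k, h1, h2, rfl⟩
    refine ⟨⟨k, fun h => h1 _ h, h2⟩, ?_⟩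
    unfold LB.gl
    split_ifs <;> rfl
  · obtain ⟨h1, h2, -⟩ := LB.idx_spec u
    refine Submodule.subset_span ⟨LB.idx u, h2, h1.trans hu, ?_⟩
    rw [tendsto_nhds_unique (h _ h2) (LB.tendsto_Li u)]
    unfold LB.gl
    split_ifs <;> rfl

end Pool.Agent.Results.MP_dda4e9_nt.DimLower
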