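import Pool.Agent.Lib.MP_dda4e9_nt.R.Main

set_option autoImplicit false

namespace Pool.Agent.Results.MP_dda4e9_nt.RankLower

open Pool.Agent.Lib.MP_dda4e9_nt

/-- The rational span of `S^e_{w,w}` has dimension at least `2 ^ ⌊w / 10⌋ / (5000 w ^ 2)`. -/
theorem result (w : ℕ) (hw : 1 ≤ w) :
    2 ^ (w / 10) ≤ 5000 * w ^ 2 * Module.finrank ℚ (Submodule.span ℚ (Se w w)) :=
  RK.rank_lower hw

end Pool.Agent.Results.MP_dda4e9_nt.RankLower
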