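import Pool.Agent.Lib.MP_dda4e9_nt.Arc

set_option autoImplicit false

namespace Pool.Agent.Results.MP_dda4e9_nt.SparseTwos

open Pool.Agent.Lib.MP_dda4e9_nt Filter Topology

/-- For an index with entries `1` and `2` and no two adjacent entries `2`, the multiple Glaisher
value at `π / 3` lies in the rational span of `S^e_{w,d}`, `w` the weight, `d` the number of
entries `2`. -/
theorem result (k : List ℕ) (h12 : ∀ a ∈ k, a = 1 ∨ a = 2)
    (hsep : k.IsChain fun a b => ¬ (a = 2 ∧ b = 2)) :
    ∃ L : ℂ, Tendsto (Li k) (𝓝[Metric.ball (0 : ℂ) 1] (Complex.exp (Real.pi / 3 * Complex.I)))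
        (𝓝 L) ∧
      (if Even k.sum then L.re else L.im) ∈ Submodule.span ℚ (Se k.sum (k.count 2)) :=
  sparse_twos k h12 hsep

end Pool.Agent.Results.MP_dda4e9_nt.SparseTwos
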